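import Pool.Agent.Helper12.NK.St

/-!
# Project NK, module CMB: crossing or not crossing sets on a cycle
-/

set_option autoImplicit false

namespace Pool.Agent.Helper62.NK

open Pool.Agent.Helper12.NK

theorem add_two {m : ℕ} (i : ZMod m) (p s t : ℕ) (h : p + s = t) :
    i + (p : ZMod m) + (s : ZMod m) = i + (t : ZMod m) := by
  rw [← h]; push_cast; ring

theorem add_two_m {m : ℕ} (i : ZMod m) (p s t : ℕ) (h : p + s = t + m) :
    i + (p : ZMod m) + (s : ZMod m) = i + (t : ZMod m) := by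
  have h1 : ((p + s : ℕ) : ZMod m) = ((t + m : ℕ) : ZMod m) := by rw [h]
  push_cast at h1
  rw [add_assoc, h1, ZMod.natCast_self, add_zero]

theorem add_m {m : ℕ} (i : ZMod m) : i + (m : ZMod m) = i := by
  rw [ZMod.natCast_self, add_zero]

theorem pos_of {V : Type} {m : ℕ} (hm : 3 ≤ m) (c : ZMod m → V) (i : ZMod m) (x : V)
    (hx : x ∈ Set.range c) : ∃ t : ℕ, t < m ∧ x = c (i + (t : ZMod m)) := by
  obtain ⟨j, rfl⟩ := hx
  have : NeZero m := ⟨by omega⟩
  refine ⟨(j - i).val, ZMod.val_lt _, ?_⟩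
  rw [ZMod.natCast_zmod_val, add_sub_cancel]

theorem case1 {V : Type} {m : ℕ} (hm : 3 ≤ m) (c : ZMod m → V) (A B : Set V)
    (hA : A ⊆ Set.range c) (hB : B ⊆ Set.range c) (i0 : ZMod m) (hb : c i0 ∈ B) (hb2 : c i0 ∉ A)
    (hC : ¬ Crs m c A B) : NCr m c A B := by
  classical
  by_cases hAe : ∃ x, x ∈ A
  · obtain ⟨a, ha⟩ := hAe
    -- positions of the elements of A
    have hpos : ∀ x ∈ A, ∃ t : ℕ, (1 ≤ t ∧ t ≤ m - 1 ∧ c (i0 + (t : ZMod m)) ∈ A)
        ∧ x = c (i0 + (t : ZMod m)) := by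
      intro x hx
      obtain ⟨t, ht, hxt⟩ := pos_of hm c i0 x (hA hx)
      refine ⟨t, ⟨?_, by omega, hxt ▸ hx⟩, hxt⟩
      rcases Nat.eq_zero_or_pos t with h0 | h0
      · exfalso
        rw [h0, Nat.cast_zero, add_zero] at hxt
        exact hb2 (hxt ▸ hx)
      · exact h0
    obtain ⟨ta, hta, -⟩ := hpos a ha
    let P : ℕ → Prop := fun t => 1 ≤ t ∧ t ≤ m - 1 ∧ c (i0 + (t : ZMod m)) ∈ A
    have hex : ∃ t, P t := ⟨ta, hta⟩
    obtain ⟨p, hp, hpmin⟩ : ∃ p, P p ∧ ∀ t, P t → p ≤ t :=
      ⟨Nat.find hex, Nat.find_spec hex, fun t ht => Nat.find_min' hex ht⟩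
    obtain ⟨q, hq, hqmax⟩ : ∃ q, P q ∧ ∀ t, P t → t ≤ q :=
      ⟨Nat.findGreatest P (m - 1), Nat.findGreatest_spec hta.2.1 hta,
        fun t ht => Nat.le_findGreatest ht.2.1 ht⟩
    have hpq : p ≤ q := hpmin q hq
    obtain ⟨hp1, hp2, hpA⟩ := hp
    obtain ⟨hq1, hq2, hqA⟩ := hq
    refine ⟨i0 + (p : ZMod m), q - p, by omega, ?_, ?_⟩
    · intro x hx
      obtain ⟨t, ht, hxt⟩ := hpos x hx
      have h1 := hpmin t ht
      have h2 := hqmax t ht
      refine ⟨t - p, by omega, ?_⟩
      rw [add_two i0 p (t - p) t (by omega)]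
      exact hxt
    · intro x hx
      obtain ⟨t, ht, hxt⟩ := pos_of hm c i0 x (hB hx)
      rcases Nat.lt_or_ge p t with h1 | h1
      · rcases Nat.lt_or_ge t q with h2 | h2
        · exfalso
          apply hC
          left
          refine ⟨i0 + (p : ZMod m), t - p, q - p, m - p, by omega, by omega, by omega, by omega,
            hpA, ?_, ?_, ?_⟩
          · rw [add_two i0 p (t - p) t (by omega), ← hxt]; exact hx
          · rw [add_two i0 p (q - p) q (by omega)]; exact hqA
          · rw [add_two i0 p (m - p) m (by omega), add_m]; exact hb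
        · refine ⟨t - p, by omega, by omega, ?_⟩
          rw [add_two i0 p (t - p) t (by omega)]
          exact hxt
      · refine ⟨t + m - p, by omega, by omega, ?_⟩
        rw [add_two_m i0 p (t + m - p) t (by omega)]
        exact hxt
  · refine ⟨i0, 0, by omega, fun x hx => absurd ⟨x, hx⟩ hAe, fun x hx => ?_⟩
    obtain ⟨t, ht, hxt⟩ := pos_of hm c i0 x (hB hx)
    exact ⟨t, by omega, by omega, hxt⟩

theorem case2 {V : Type} {m : ℕ} (hm : 3 ≤ m) (c : ZMod m → V) (A B : Set V)
    (hA : A ⊆ Set.range c) (hBA : B ⊆ A) (hC : ¬ Crs m c A B) : NCr m c A B := by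
  classical
  by_cases hBe : ∃ x, x ∈ B
  · obtain ⟨x, hx⟩ := hBe
    obtain ⟨i0, hi0⟩ := hA (hBA hx)
    by_cases hy : ∃ y, y ∈ B ∧ y ≠ x
    · obtain ⟨y, hyB, hyx⟩ := hy
      obtain ⟨t0, ht0, hyt⟩ := pos_of hm c i0 y (hA (hBA hyB))
      have ht1 : 0 < t0 := by
        rcases Nat.eq_zero_or_pos t0 with h0 | h0
        · exfalso
          rw [h0, Nat.cast_zero, add_zero, hi0] at hyt
          exact hyx hyt
        · exact h0
      have hxy : ∀ z ∈ B, z = x ∨ z = y := by
        intro z hz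
        by_contra hcon
        push Not at hcon
        apply hC
        right
        exact ⟨x, y, z, hyx.symm, hcon.2.symm, hcon.1.symm, hBA hx, hx, hBA hyB, hyB, hBA hz, hz⟩
      by_cases hlow : ∃ p, 0 < p ∧ p < t0 ∧ c (i0 + (p : ZMod m)) ∈ A
      · have hnone : ∀ q, t0 < q → q < m → c (i0 + (q : ZMod m)) ∉ A := by
          intro q hq1 hq2 hqA
          obtain ⟨p, hp1, hp2, hpA⟩ := hlow
          apply hC
          left
          refine ⟨i0 + (p : ZMod m), t0 - p, q - p, m - p, by omega, by omega, by omega, by omega,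
            hpA, ?_, ?_, ?_⟩
          · rw [add_two i0 p (t0 - p) t0 (by omega), ← hyt]; exact hyB
          · rw [add_two i0 p (q - p) q (by omega)]; exact hqA
          · rw [add_two i0 p (m - p) m (by omega), add_m, hi0]; exact hx
        refine ⟨i0, t0, by omega, ?_, ?_⟩
        · intro z hz
          obtain ⟨t, ht, hzt⟩ := pos_of hm c i0 z (hA hz)
          refine ⟨t, ?_, hzt⟩
          by_contra hcon
          push Not at hcon
          exact hnone t hcon ht (hzt ▸ hz)
        · intro z hz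
          rcases hxy z hz with h | h
          · exact ⟨m, by omega, le_refl _, by rw [add_m, hi0, h]⟩
          · exact ⟨t0, le_refl _, by omega, by rw [h, hyt]⟩
      · have hnone : ∀ p, 0 < p → p < t0 → c (i0 + (p : ZMod m)) ∉ A := by
          intro p hp1 hp2 hpA
          exact hlow ⟨p, hp1, hp2, hpA⟩
        refine ⟨i0 + (t0 : ZMod m), m - t0, by omega, ?_, ?_⟩
        · intro z hz
          obtain ⟨t, ht, hzt⟩ := pos_of hm c i0 z (hA hz)
          rcases Nat.eq_zero_or_pos t with h0 | h0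
          · refine ⟨m - t0, le_refl _, ?_⟩
            rw [add_two i0 t0 (m - t0) m (by omega), add_m]
            rw [h0, Nat.cast_zero, add_zero] at hzt
            exact hzt
          · have h1 : t0 ≤ t := by
              by_contra hcon
              push Not at hcon
              exact hnone t h0 hcon (hzt ▸ hz)
            refine ⟨t - t0, by omega, ?_⟩
            rw [add_two i0 t0 (t - t0) t (by omega)]
            exact hzt
        · intro z hz
          rcases hxy z hz with h | h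
          · refine ⟨m - t0, le_refl _, by omega, ?_⟩
            rw [add_two i0 t0 (m - t0) m (by omega), add_m, hi0, h]
          · refine ⟨m, by omega, le_refl _, ?_⟩
            rw [add_m, h, hyt]
    · push Not at hy
      refine ⟨i0, m, le_refl _, ?_, ?_⟩
      · intro z hz
        obtain ⟨t, ht, hzt⟩ := pos_of hm c i0 z (hA hz)
        exact ⟨t, ht.le, hzt⟩
      · intro z hz
        refine ⟨m, le_refl _, le_refl _, ?_⟩
        rw [add_m, hi0, hy z hz]
  · refine ⟨0, m, le_refl _, ?_, fun x hx => absurd ⟨x, hx⟩ hBe⟩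
    intro z hz
    obtain ⟨t, ht, hzt⟩ := pos_of hm c 0 z (hA hz)
    exact ⟨t, ht.le, hzt⟩

/-- MODULE CMB -/
theorem hCMB : StCMB := by
  intro V m c A B hm hinj hA hB
  by_cases hC : Crs m c A B
  · exact Or.inr hC
  · left
    by_cases hBA : B ⊆ A
    · exact case2 hm c A B hA hBA hC
    · obtain ⟨b, hb, hbA⟩ := Set.not_subset.mp hBA
      obtain ⟨i0, hi0⟩ := hB hb
      exact case1 hm c A B hA hB i0 (hi0 ▸ hb) (hi0 ▸ hbA) hC

end Pool.Agent.Helper62.NK
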